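import Mathlib
import Pool.Agent.Results.MP_360cb4_gt.NotDetermined

/-!
# A `T₁` well-filtered determined space whose Smyth power space is not well-filtered determined

The starting file `NotDetermined` gives a `T₀` space.  Here the space is `T₁`, it is a countable
disjoint union of closed copies of the Cantor space, and it maps onto the Cantor space with all
fibres homeomorphic to the natural numbers with the cofinite topology.
-/

set_option autoImplicit false
set_option linter.all false

namespace Pool.Agent.Results.MP_360cb4_gt.TOneCantorUnion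

open Set TopologicalSpace
open Pool.Agent.Results.MP_360cb4_gt.NotDetermined

theorem t1X : T1Space XX := ⟨fun x => isClosed_of_finite (finite_singleton x)⟩

/-- The levels of `XX` are copies of the Cantor space. -/
def levelHomeo (n : ℕ) : ↥{x : XX | x.n = n} ≃ₜ (ℕ → Bool) where
  toFun x := x.1.t
  invFun t := ⟨⟨t, n⟩, rfl⟩
  left_inv x := by
    obtain ⟨⟨t, m⟩, hm⟩ := x
    simp only [mem_setOf_eq] at hm
    subst hm
    rfl
  right_inv t := rfl
  continuous_toFun := continuous_pr.comp continuous_subtype_val
  continuous_invFun := (continuous_slice n).subtype_mk _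

/-- The rows of `XX` are copies of the natural numbers with the cofinite topology. -/
def rowHomeo (c : ℕ → Bool) : ↥(pr ⁻¹' {c}) ≃ₜ CofiniteTopology ℕ where
  toFun x := CofiniteTopology.of x.1.n
  invFun k := ⟨⟨c, CofiniteTopology.of.symm k⟩, rfl⟩
  left_inv x := by
    obtain ⟨⟨t, m⟩, hm⟩ := x
    have h : t = c := hm
    subst h
    rfl
  right_inv k := rfl
  continuous_toFun := by
    haveI := t1X
    refine continuous_def.2 fun V hV => ?_
    rcases V.eq_empty_or_nonempty with rfl | hne
    · simp
    · have hfin : Vᶜ.Finite := (CofiniteTopology.isOpen_iff.1 hV) hne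
      have hcl : IsClosed ((fun x : ↥(pr ⁻¹' {c}) => CofiniteTopology.of x.1.n) ⁻¹' Vᶜ) := by
        apply Set.Finite.isClosed
        apply hfin.preimage
        intro x _ y _ hxy
        obtain ⟨⟨t, m⟩, hm⟩ := x
        obtain ⟨⟨s, k⟩, hk⟩ := y
        have h1 : t = c := hm
        have h2 : s = c := hk
        have h3 : m = k := by simpa using hxy
        subst h1 h3
        subst h2
        rfl
      rw [← isClosed_compl_iff]
      exact hcl
  continuous_invFun := by
    refine Continuous.subtype_mk ?_ _
    refine continuous_def.2 fun U hU => ?_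
    rw [CofiniteTopology.isOpen_iff]
    rintro ⟨k, hk⟩
    have h := hU.2 c ⟨CofiniteTopology.of.symm k, hk⟩
    exact h.image CofiniteTopology.of |>.subset fun m hm =>
      ⟨CofiniteTopology.of.symm m, hm, rfl⟩

/-- The class of well-filtered spaces is an adequate Smyth category.  There is a well-filtered
determined `T₁` space `X`, which is a disjoint union of countably many closed subspaces
homeomorphic to the Cantor space, and which has a continuous map onto the Cantor space with all
fibres homeomorphic to the natural numbers with the cofinite topology, such that the Smyth power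
space of `X` has an irreducible closed subset which is not a well-filtered determined set. -/
theorem result : IsBaseClass TopW ∧ IsAdequate TopW ∧ IsSmyth TopW ∧
    ∃ (X : Type) (_ : TopologicalSpace X), T1Space X ∧ SigmaCompactSpace X ∧
      IsDetSpace TopW X ∧
      (∃ E : ℕ → Set X, (∀ n, IsClosed (E n)) ∧ (∀ m n, m ≠ n → Disjoint (E m) (E n)) ∧
        (∀ n, Nonempty (↥(E n) ≃ₜ (ℕ → Bool))) ∧ ⋃ n, E n = univ) ∧
      (∃ p : X → ℕ → Bool, Continuous p ∧ Function.Surjective p ∧
        ∀ c, Nonempty (↥(p ⁻¹' {c}) ≃ₜ CofiniteTopology ℕ)) ∧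
      ∃ A : Set (KS X), IsClosed A ∧ IsIrreducible A ∧ ¬ IsDetSet TopW A := by
  have hlev : ∀ n : ℕ, IsCompact {x : XX | x.n = n} := by
    intro n
    rw [isCompact_iff_compactSpace]
    exact (levelHomeo n).symm.compactSpace
  have huniv : ⋃ n : ℕ, {x : XX | x.n = n} = univ := by
    ext x
    simp
  refine ⟨topW_base, topW_adequate, topW_smyth, XX, topX, t1X, ?_, ?_, ?_, ?_, AA, isClosed_AA,
    isIrreducible_AA, ?_⟩
  · exact ⟨⟨fun n => {x : XX | x.n = n}, hlev, huniv⟩⟩
  · ext A
    constructor
    · rintro ⟨h1, h2⟩
      exact ⟨h1, wfdX h1 h2⟩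
    · rintro ⟨h1, h2⟩
      exact ⟨h1, detSet_irr h2⟩
  · refine ⟨fun n => {x : XX | x.n = n}, isClosed_level, ?_, fun n => ⟨levelHomeo n⟩, huniv⟩
    intro m n hmn
    rw [Set.disjoint_left]
    intro x hx hx'
    exact hmn (hx.symm.trans hx')
  · exact ⟨pr, continuous_pr, fun c => ⟨⟨c, 0⟩, rfl⟩, fun c => ⟨rowHomeo c⟩⟩
  · intro h
    obtain ⟨y, hy, -⟩ := h YY topY emb wfY continuous_emb
    exact no_point y hy

end Pool.Agent.Results.MP_360cb4_gt.TOneCantorUnion
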